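import Pool.Agent.Zk33.HF.Abs

/-!
One-point and two-point bounds for independent sums: if `G` satisfies them under each `μ i`, then
the sum of `k` independent copies satisfies them under the product measure, with the exponent
`k b`.
-/

set_option autoImplicit false

namespace Pool.Agent.Zk11.HF

open MeasureTheory Metric Set Filter Topology Pool.Agent.Zk33.HF

theorem pi_real {Ω : Type*} [MeasurableSpace Ω] {k : ℕ} (μ : Fin k → Measure Ω)
    [∀ i, IsProbabilityMeasure (μ i)] (s : Fin k → Set Ω) :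
    (Measure.pi μ).real (univ.pi s) = ∏ i, (μ i).real (s i) := by
  rw [measureReal_def, Measure.pi_pi, ENNReal.toReal_prod]
  rfl

theorem bds_pi {Ω : Type*} [TopologicalSpace Ω] [MeasurableSpace Ω] [BorelSpace Ω] {k : ℕ}
    (hk : 1 ≤ k) {μ : Fin k → Measure Ω} [∀ i, IsProbabilityMeasure (μ i)] {G : Ω → ℂ → ℝ}
    (hG : ∀ ω z, 0 ≤ G ω z) {K0 : Set ℂ} {b a C ρ0 : ℝ} (hb : 0 < b) (ha : 0 < a) (hC : 0 < C)
    (h : ∀ i, Bds (μ i) G K0 b a C ρ0) :
    Bds (Measure.pi μ) (fun ω z => ∑ i, G (ω i) z) K0 (k * b) (a ^ k * (k : ℝ) ^ (-(k * b)))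
      (C ^ k) ρ0 := by
  have hk0 : (0 : ℝ) < k := by exact_mod_cast hk
  have hk1 : (1 : ℝ) ≤ k := by exact_mod_cast hk
  have hpow : ∀ x : ℝ, 0 ≤ x → ∀ y : ℝ, (x ^ y) ^ k = x ^ (k * y) := by
    intro x hx y
    rw [← Real.rpow_natCast, ← Real.rpow_mul hx, mul_comm]
  refine ⟨?_, ?_, ?_⟩
  · refine continuous_finsetSum _ fun i _ => ?_
    have h1 : Continuous fun p : (Fin k → Ω) × ℂ => ((p.1 i, p.2) : Ω × ℂ) :=
      ((continuous_apply i).comp continuous_fst).prodMk continuous_snd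
    have h2 : Continuous ((fun p : Ω × ℂ => G p.1 p.2) ∘
        fun p : (Fin k → Ω) × ℂ => ((p.1 i, p.2) : Ω × ℂ)) := (h i).cont.comp h1
    exact h2
  · intro z hz ρ hρ hρ0
    have hρk : 0 < ρ / k := div_pos hρ hk0
    have hρk0 : ρ / k ≤ ρ0 := (div_le_self hρ.le hk1).trans hρ0
    have hsub : univ.pi (fun _ : Fin k => {ω : Ω | G ω z ≤ ρ / k}) ⊆
        {ω : Fin k → Ω | ∑ i, G (ω i) z ≤ ρ} := by
      intro ω hω
      show ∑ i, G (ω i) z ≤ ρ
      calc ∑ i, G (ω i) z ≤ ∑ _i : Fin k, ρ / k :=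
            Finset.sum_le_sum fun i _ => hω i (mem_univ i)
        _ = ρ := by
            rw [Finset.sum_const, Finset.card_univ, Fintype.card_fin, nsmul_eq_mul]
            field_simp
    calc a ^ k * (k : ℝ) ^ (-(k * b)) * ρ ^ (k * b) = ∏ _i : Fin k, a * (ρ / k) ^ b := by
          rw [Finset.prod_const, Finset.card_univ, Fintype.card_fin, mul_pow,
            hpow _ hρk.le, Real.div_rpow hρ.le hk0.le, Real.rpow_neg hk0.le]
          ring
      _ ≤ ∏ i : Fin k, (μ i).real {ω | G ω z ≤ ρ / k} :=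
          Finset.prod_le_prod (fun i _ => by positivity)
            fun i _ => (h i).low z hz (ρ / k) hρk hρk0
      _ = (Measure.pi μ).real (univ.pi fun _ : Fin k => {ω : Ω | G ω z ≤ ρ / k}) :=
          (pi_real μ _).symm
      _ ≤ _ := measureReal_mono hsub (measure_ne_top _ _)
  · intro z hz w hw ρ hρ hρ0
    have hM : 0 < max (dist z w) ρ := hρ.trans_le (le_max_right _ _)
    have hsub : {ω : Fin k → Ω | ∑ i, G (ω i) z ≤ ρ} ∩ {ω : Fin k → Ω | ∑ i, G (ω i) w ≤ ρ} ⊆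
        univ.pi (fun _ : Fin k => {ω : Ω | G ω z ≤ ρ} ∩ {ω : Ω | G ω w ≤ ρ}) := by
      rintro ω ⟨h1, h2⟩ i -
      exact ⟨(Finset.single_le_sum (f := fun i => G (ω i) z) (fun j _ => hG _ _)
          (Finset.mem_univ i)).trans h1,
        (Finset.single_le_sum (f := fun i => G (ω i) w) (fun j _ => hG _ _)
          (Finset.mem_univ i)).trans h2⟩
    calc (Measure.pi μ).real
          ({ω : Fin k → Ω | ∑ i, G (ω i) z ≤ ρ} ∩ {ω : Fin k → Ω | ∑ i, G (ω i) w ≤ ρ}) ≤
          (Measure.pi μ).real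
            (univ.pi fun _ : Fin k => {ω : Ω | G ω z ≤ ρ} ∩ {ω : Ω | G ω w ≤ ρ}) :=
          measureReal_mono hsub (measure_ne_top _ _)
      _ = ∏ i : Fin k, (μ i).real ({ω | G ω z ≤ ρ} ∩ {ω | G ω w ≤ ρ}) := pi_real μ _
      _ ≤ ∏ _i : Fin k, C * ρ ^ (2 * b) * (max (dist z w) ρ) ^ (-b) :=
          Finset.prod_le_prod (fun i _ => measureReal_nonneg)
            fun i _ => (h i).up z hz w hw ρ hρ hρ0
      _ = C ^ k * ρ ^ (2 * (k * b)) * (max (dist z w) ρ) ^ (-(k * b)) := by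
          rw [Finset.prod_const, Finset.card_univ, Fintype.card_fin, mul_pow, mul_pow,
            hpow _ hρ.le, hpow _ hM.le]
          congr 2
          · congr 1; ring
          · ring

end Pool.Agent.Zk11.HF
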